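import Pool.Agent.U797.NL.Cone2

set_option autoImplicit false

/-!
# Graphs whose neighbourhoods have no copy of `F` and no induced copy of a forest

Let `F` be a graph and `T` a forest.  There are `C`, `c > 0` such that every finite graph `G` of large maximum
degree at most `Δ` in which no neighbourhood has a copy of `F` or an induced copy of `T` has chromatic number
at most `C Δ (log log Δ) ^ (1 - c) / log Δ`.  The bound of Johansson for all graphs with no copy of `F` in a
neighbourhood is `C Δ log log Δ / log Δ`; the conjecture is `C Δ / log Δ`.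

Proof.  Let `N` be a set of neighbours of a vertex, with weights `l u ≤ 1` of sum `Λ`.  By the theorem of
`MP_763321_co.SubpolynomialDegree` every subset of `N` with at most `3 Λ` elements can be coloured with
`s = exp (C (1 + log (4 Λ)) ^ (1 - c))` colours.  If `Z` is the partition function of the independent subsets of `N`
then `Z ^ s` is at least the sum of the weights of all the `s`-colourable subsets (`good_sum`), and the subsets
with at most `3 Λ` elements have total weight at least `exp (Λ / 4)` (`zf_big`), so `log Z ≥ Λ / (4 s)`.  By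
Jensen's inequality, with the weights divided by `8 s`, the mean size of a random independent set is at least
`log Z / (2 log (8 s))`, and if `log Z ≥ T` this is at least `T / (28 C (log T) ^ (1 - c))` (`occ_tree`).  The
counting theorem for colourings with local occupancy (Rosenfeld, Davies, Kang, Pirot and Sereni; in the
starting library, `colorable_of_occ`) with `T = (log Δ) / 2` finishes the proof.
-/

namespace Pool.Agent.Results.MP_06c6c1_co.NoInducedCone

/-- For every finite graph `F` and every forest `T` there are `C`, `c > 0` and `Δ₀` such that for `Δ ≥ Δ₀` every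
finite graph `G` with all degrees at most `Δ` such that no neighbourhood contains a copy of `F`, and none
contains an induced copy of `T`, has chromatic number at most `C Δ (log log Δ) ^ (1 - c) / log Δ`. -/
theorem result (W : Type) [Fintype W] (F : SimpleGraph W) (m : ℕ) (T : SimpleGraph (Fin m))
    (hT : T.IsAcyclic) :
    ∃ C c : ℝ, ∃ Δ₀ : ℕ, 0 < c ∧ c < 1 ∧ ∀ (V : Type) [Fintype V] (G : SimpleGraph V),
      (∀ v, ¬ F.IsContained (G.induce (G.neighborSet v))) →
      (∀ v, ¬ T.IsIndContained (G.induce (G.neighborSet v))) →
      ∀ Δ : ℕ, Δ₀ ≤ Δ → (∀ v, (G.neighborSet v).ncard ≤ Δ) →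
      G.Colorable ⌊C * (Δ * Real.log (Real.log Δ) ^ (1 - c) / Real.log Δ)⌋₊ := by
  classical
  obtain ⟨T', hT', ⟨ι0⟩⟩ := Pool.Agent.H367R3.forest_in_tree T hT
  obtain ⟨C, c, Δ₀, hc, hc1, hmain⟩ :=
    Pool.Agent.U797.NLO.col_tree m T' hT' (Fintype.card W + 2) (by omega)
  refine ⟨C, c, Δ₀, hc, hc1, ?_⟩
  intro V _ G hF hind Δ hΔ hdeg
  refine hmain V G ?_ ?_ Δ hΔ ?_
  · have h1 : G.CliqueFree (Fintype.card W + 1) := by
      intro S hS
      obtain ⟨v, hv⟩ : S.Nonempty := by
        rw [← Finset.card_pos, hS.card_eq]
        omega
      apply hF v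
      have h2 : Fintype.card W = Fintype.card (S.erase v) := by
        rw [Fintype.card_coe, Finset.card_erase_of_mem hv, hS.card_eq]
        rfl
      obtain ⟨e⟩ := Fintype.card_eq.1 h2
      have hmem : ∀ w : W, ((e w : V) ≠ v ∧ (e w : V) ∈ S) := fun w => Finset.mem_erase.1 (e w).2
      refine ⟨⟨⟨fun w => ⟨(e w : V), hS.isClique hv (hmem w).2 (hmem w).1.symm⟩, ?_⟩, ?_⟩⟩
      · intro a b hab
        exact hS.isClique (hmem a).2 (hmem b).2 (fun h => hab.ne (e.injective (Subtype.ext h)))
      · intro a b hab
        exact e.injective (Subtype.ext (congrArg (fun z : G.neighborSet v => z.1) hab))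
    exact h1.mono (by omega)
  · rintro v ⟨φ⟩
    exact hind v ⟨ι0.trans φ⟩
  · intro v
    refine le_trans (le_of_eq ?_) (hdeg v)
    rw [← Set.ncard_coe_finset]
    congr 1
    ext u
    simp

end Pool.Agent.Results.MP_06c6c1_co.NoInducedCone
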