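import Pool.Agent.U797.NL.Join

set_option autoImplicit false

/-!
# Graphs whose neighbourhoods have no copy of `F`, and with no induced join of a clique and a forest

Let `F` be a graph, `T` a forest, `s ≥ 0` and `ε > 0`.  Every finite graph `G` of large maximum degree at most `Δ`
in which no neighbourhood has a copy of `F`, and such that the common neighbourhood of no clique on `s + 1`
vertices has an induced subgraph `T`, has chromatic number at most `(1 + ε) (s + 2) Δ log log Δ / log Δ`.  The
constant `s + 2` does not depend on `F`; in the bound of Johansson, Molloy and Davies, Kang, Pirot and Sereni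
the constant grows with the clique number.

Proof.  As for `NoInducedCone`, a set `N` of vertices with no induced subgraph `T` and with weights at most `1` of
sum at least `y ^ 2` has partition function at least `exp (y / 8)` if `y` is large (`zf_base`).  By induction the
same holds for sets of vertices with no induced join of a clique on `s` vertices and `T` if the sum is at least
`y ^ (s + 2)` (`zf_lower2`): if the neighbours of every vertex have weight less than `y ^ (s + 1)` a sparse
random set is nearly independent.  The rest is as for graphs of bounded clique number (local occupancy, in the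
starting library `R143/JM`).
-/

namespace Pool.Agent.Results.MP_06c6c1_co.NoInducedJoin

open Pool.Agent.U797.NLO
open Pool.Agent.U797.LV (nb mem_nb)
open Pool.Agent.U312.NL (sub sub_adj sub_nb sub_free)

theorem lv_of {n : ℕ} {T : SimpleGraph (Fin (n + 1))} {k : ℕ} {C c : ℝ} (hC1 : 1 ≤ C)
    (H : ∀ (V : Type) [Fintype V] (G : SimpleGraph V) (D : ℝ), 1 ≤ D →
      (∀ v, ((nb G v).card : ℝ) ≤ D) → G.CliqueFree k → ¬ T.IsIndContained G →
      G.Colorable ⌊Real.exp (C * (1 + Real.log D) ^ (1 - c))⌋₊)
    {V : Type} [Fintype V] {G : SimpleGraph V} (hfree : G.CliqueFree k) (s : ℕ) :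
    ∀ (p : ℕ) (P N : Finset V), G.IsNClique p P → (∀ q ∈ P, ∀ x ∈ N, G.Adj q x) →
      (∀ Q : Finset V, G.IsNClique (p + s) Q →
        ¬ T.IsIndContained (G.induce {x | ∀ q ∈ Q, G.Adj q x})) → Lv G C c s N := by
  classical
  induction s with
  | zero =>
    intro p P N hP hPN hQ S hS M hM hcard
    have hM1 : (1 : ℝ) ≤ M := by exact_mod_cast hM
    have h0 : (sub G S).Colorable (cl C c M) := by
      refine H {x // x ∈ S} (sub G S) M hM1 (fun x => ?_) (sub_free hfree S) ?_
      · have h1 := sub_nb (G := G) x
        have h2 : (nb G x.1 ∩ S).card ≤ S.card := Finset.card_le_card Finset.inter_subset_right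
        exact_mod_cast (h1.trans h2).trans hcard
      · rintro ⟨φ⟩
        apply hQ P hP
        refine ⟨φ.trans ⟨⟨fun x => ⟨x.1, fun q hq => hPN q hq x.1 (hS x.2)⟩, ?_⟩, ?_⟩⟩
        · intro x y hxy
          exact Subtype.ext (congrArg (fun z : {x | ∀ q ∈ P, G.Adj q x} => z.1) hxy)
        · intro x y
          exact Iff.rfl
    have hpos : 0 < cl C c M := by
      rw [cl]
      apply Nat.floor_pos.2
      apply Real.one_le_exp
      have := Real.log_nonneg hM1
      positivity
    obtain ⟨g⟩ := h0
    refine ⟨fun u => if h : u ∈ S then g ⟨u, h⟩ else ⟨0, hpos⟩, ?_⟩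
    intro u hu w hw huw
    dsimp only
    rw [dif_pos hu, dif_pos hw]
    exact g.valid (sub_adj.2 huw)
  | succ s ih =>
    intro p P N hP hPN hQ u hu
    refine ih (p + 1) (insert u P) _ (hP.insert (fun q hq => (hPN q hq u hu).symm)) ?_ ?_
    · intro q hq x hx
      rw [Finset.mem_insert] at hq
      rw [Finset.mem_filter] at hx
      rcases hq with rfl | hq
      · exact hx.2
      · exact hPN q hq x hx.1
    · intro Q hQ'
      exact hQ Q (by rwa [show p + (s + 1) = p + 1 + s by ring])

/-- For every finite graph `F`, every forest `T`, every `s` and `ε > 0` there is `Δ₀` such that for `Δ ≥ Δ₀` every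
finite graph `G` with all degrees at most `Δ`, such that no neighbourhood contains a copy of `F`, and the common
neighbourhood of no clique on `s + 1` vertices has an induced subgraph `T`, has chromatic number at most
`(1 + ε) (s + 2) Δ log log Δ / log Δ`. -/
theorem result (W : Type) [Fintype W] (F : SimpleGraph W) (m : ℕ) (T : SimpleGraph (Fin m))
    (hT : T.IsAcyclic) (s : ℕ) (ε : ℝ) (hε : 0 < ε) :
    ∃ Δ₀ : ℕ, ∀ (V : Type) [Fintype V] (G : SimpleGraph V),
      (∀ v, ¬ F.IsContained (G.induce (G.neighborSet v))) →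
      (∀ Q : Finset V, G.IsNClique (s + 1) Q →
        ¬ T.IsIndContained (G.induce {x | ∀ q ∈ Q, G.Adj q x})) →
      ∀ Δ : ℕ, Δ₀ ≤ Δ → (∀ v, (G.neighborSet v).ncard ≤ Δ) →
      G.Colorable ⌊(1 + ε) * (s + 2) * (Δ * Real.log (Real.log Δ) / Real.log Δ)⌋₊ := by
  classical
  obtain ⟨T', hT', ⟨ι0⟩⟩ := Pool.Agent.H367R3.forest_in_tree T hT
  obtain ⟨C, c, hC1, hc, hc2, hchi⟩ :=
    Pool.Agent.U797.NL.chiQ m T' hT' (Fintype.card W + 2) (by omega)
  obtain ⟨Δ₀, hmain⟩ := col_lv C c hC1 hc hc2 s (s + 2) rfl ε hε
  refine ⟨Δ₀, ?_⟩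
  intro V _ G hF hind Δ hΔ hdeg
  have hfree : G.CliqueFree (Fintype.card W + 2) := by
    have h1 : G.CliqueFree (Fintype.card W + 1) := by
      intro S hS
      obtain ⟨v, hv⟩ : S.Nonempty := by
        rw [← Finset.card_pos, hS.card_eq]
        omega
      apply hF v
      have h2 : Fintype.card W = Fintype.card (S.erase v) := by
        rw [Fintype.card_coe, Finset.card_erase_of_mem hv, hS.card_eq]
        rfl
      obtain ⟨e⟩ := Fintype.card_eq.1 h2
      have hmem : ∀ w : W, ((e w : V) ≠ v ∧ (e w : V) ∈ S) := fun w => Finset.mem_erase.1 (e w).2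
      refine ⟨⟨⟨fun w => ⟨(e w : V), hS.isClique hv (hmem w).2 (hmem w).1.symm⟩, ?_⟩, ?_⟩⟩
      · intro a b hab
        exact hS.isClique (hmem a).2 (hmem b).2 (fun h => hab.ne (e.injective (Subtype.ext h)))
      · intro a b hab
        exact e.injective (Subtype.ext (congrArg (fun z : G.neighborSet v => z.1) hab))
    exact h1.mono (by omega)
  have hA : ∀ v, ∀ N : Finset V, (∀ w ∈ N, G.Adj v w) → N.card ≤ Δ := by
    intro v N hN
    refine le_trans ?_ (hdeg v)
    rw [← Set.ncard_coe_finset]
    exact Set.ncard_le_ncard (fun u hu => hN u hu) (Set.toFinite _)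
  have hB : ∀ v, ∀ N : Finset V, (∀ w ∈ N, G.Adj v w) → Lv G C c s N := by
    intro v N hN
    refine lv_of hC1 hchi hfree s 1 {v} N (by simp) ?_ ?_
    · intro q hq x hx
      rw [Finset.mem_singleton] at hq
      rw [hq]
      exact hN x hx
    · rintro Q hQ ⟨φ⟩
      exact hind Q (by rwa [add_comm]) ⟨ι0.trans φ⟩
  obtain ⟨n, hn, hnle⟩ := hmain Δ hΔ V G hA hB
  refine hn.mono (Nat.le_floor (hnle.trans (le_of_eq ?_)))
  push_cast
  ring

end Pool.Agent.Results.MP_06c6c1_co.NoInducedJoin
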